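import Pool.Agent.MP_c69980_ag.H43.Spec1

/-!
Row Ind: calculus of transcendence degrees through the algebraic matroid.
-/

set_option autoImplicit false

namespace Pool.Agent.MP_c69980_ag.H43

open MvPolynomial Set

/-- The algebraic matroid. -/
noncomputable abbrev indM (F : Subfield ℂ) : Matroid ℂ := AlgebraicIndependent.matroid F ℂ

variable {F F' : Subfield ℂ} {s : Set ℂ} {n : ℕ}

lemma ind_enum {I : Set ℂ} (h : (indM F).Indep I) (hn : I.encard = n) :
    ∃ y : Fin n → ℂ, range y = I ∧ AlgebraicIndependent F y := by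
  have := (finite_of_encard_eq_coe hn).fintype
  have e : I ≃ Fin n := Fintype.equivFinOfCardEq (by
    rw [← Nat.cast_inj (R := ℕ∞), ← hn, coe_fintypeCard])
  refine ⟨Subtype.val ∘ e.symm, ?_, AlgebraicIndependent.comp h _ e.symm.injective⟩
  rw [e.symm.surjective.range_comp, Subtype.range_coe]

lemma ind_card {y : Fin n → ℂ} (h : Function.Injective y) : (range y).encard = n := by
  rw [← image_univ, h.encard_image, encard_univ, ENat.card_eq_coe_fintype_card, Fintype.card_fin]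

lemma ind_iff : Ind F n s ↔ (n : ℕ∞) ≤ (indM F).eRk s := by
  rw [Matroid.le_eRk_iff]
  constructor
  · rintro ⟨y, h1, h2⟩
    exact ⟨range y, range_subset_iff.2 h1, h2.to_subtype_range, ind_card h2.injective⟩
  · rintro ⟨I, h1, h2, h3⟩
    obtain ⟨y, rfl, h4⟩ := ind_enum h2 h3
    exact ⟨y, fun i => h1 ⟨i, rfl⟩, h4⟩

lemma ind_not : ¬ Ind F (n + 1) s ↔ (indM F).eRk s ≤ n := by
  rw [ind_iff, not_le, Nat.cast_succ, ENat.lt_add_one_iff (ENat.natCast_ne_top n)]

lemma ind_cl' {x : ℂ} : x ∈ (indM F).closure s ↔ IsAlgebraic (Algebra.adjoin F s) x := by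
  rw [AlgebraicIndependent.matroid_closure_eq, SetLike.mem_coe, Subalgebra.mem_algebraicClosure]

lemma ind_cl {x : ℂ} :
    x ∈ (indM F).closure s ↔ IsAlgebraic (Subfield.closure (F ∪ s : Set ℂ)) x := by
  have e : Subfield.closure (F ∪ s : Set ℂ) = (IntermediateField.adjoin F s).toSubfield := by
    rw [IntermediateField.adjoin_toSubfield]
    congr 2
    exact Subtype.range_coe.symm
  rw [ind_cl', ← IntermediateField.isAlgebraic_adjoin_iff, e]
  rfl

lemma ind_of_cl {t : Set ℂ} (h : Ind F n t) (hs : t ⊆ (indM F).closure s) : Ind F n s :=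
  ind_iff.2 ((ind_iff.1 h).trans (((indM F).eRk_mono hs).trans_eq ((indM F).eRk_closure_eq s)))

lemma ind_adj : (Algebra.adjoin F s : Set ℂ) ⊆ (indM F).closure s := fun x hx =>
  ind_cl'.2 (isAlgebraic_algebraMap (⟨x, hx⟩ : Algebra.adjoin F s))

lemma ind_up (h : F ≤ F') {x : ℂ} (hx : IsAlgebraic F x) : IsAlgebraic F' x := by
  let := (Subfield.inclusion h).toAlgebra
  have : IsScalarTower F F' ℂ := .of_algebraMap_eq fun _ => rfl
  exact hx.tower_top F'

lemma ind_max (F : Subfield ℂ) (N : ℕ) (s : Set ℂ) (h : ¬ Ind F (N + 1) s) :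
    ∃ (n : ℕ) (y : Fin n → ℂ), n ≤ N ∧ ¬ Ind F (n + 1) s ∧ (∀ i, y i ∈ s) ∧
      AlgebraicIndependent F y ∧
      ∀ x ∈ s, IsAlgebraic (Subfield.closure (F ∪ range y : Set ℂ)) x := by
  obtain ⟨I, hI⟩ := (indM F).exists_isBasis s
  rw [ind_not, ← hI.encard_eq_eRk] at h
  obtain ⟨n, h1, h2⟩ := ENat.le_natCast_iff.1 h
  obtain ⟨y, rfl, h3⟩ := ind_enum hI.indep h1
  exact ⟨n, y, h2, ind_not.2 (hI.encard_eq_eRk.symm.trans h1).le, fun i => hI.subset ⟨i, rfl⟩, h3,
    fun x hx => ind_cl.1 (hI.subset_closure hx)⟩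

lemma ind_bound (F F' : Subfield ℂ) (m n : ℕ) (s : Set ℂ) (h1 : ¬ Ind F (m + 1) F')
    (h2 : ¬ Ind F' (n + 1) s) : ¬ Ind F (m + n + 1) s := by
  obtain ⟨k, z, h3, -, -, h4, h5⟩ := ind_max F' n s h2
  have h6 : s ⊆ (indM F).closure (F' ∪ range z) := fun x hx =>
    ind_cl.2 (ind_up (Subfield.closure_mono subset_union_right) (h5 x hx))
  rw [ind_not] at h1 ⊢
  refine ((indM F).eRk_mono h6).trans ?_
  rw [Matroid.eRk_closure_eq, Nat.cast_add]
  refine ((indM F).eRk_union_le_eRk_add_encard _ _).trans (add_le_add h1 ?_)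
  rw [ind_card h4.injective]
  exact_mod_cast h3

lemma ind_hom (F : Subfield ℂ) (R : Subalgebra F ℂ) (ξ : R →ₐ[F] ℂ) (n : ℕ)
    (h : Ind F n (range ξ)) : Ind F n R ∧ ∀ u : R, u ≠ 0 → ξ u = 0 → Ind F (n + 1) R := by
  obtain ⟨y, h1, h2⟩ := h
  choose r hr using h1
  obtain rfl : ξ ∘ r = y := funext hr
  have h3 : AlgebraicIndependent F r := h2.of_comp ξ
  refine ⟨⟨_, fun i => (r i).2, h3.map' (f := R.val) Subtype.val_injective⟩, fun u hu h0 => ?_⟩
  have h4 : Transcendental (Algebra.adjoin F (range r)) u := by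
    intro h4
    obtain ⟨⟨b, hb⟩, h5, v, h6⟩ := h4.exists_nonzero_dvd (mem_nonZeroDivisors_of_ne_zero hu)
    rw [Algebra.adjoin_range_eq_range_aeval] at hb
    obtain ⟨P, rfl⟩ := hb
    have h7 : aeval (ξ ∘ r) P = 0 := by
      have h8 : ξ (aeval r P) = 0 := by
        rw [show aeval r P = u * v from h6, map_mul, h0, zero_mul]
      exact (congrArg (fun f => f P) (comp_aeval (f := r) ξ)).symm.trans h8
    obtain rfl := algebraicIndependent_iff.1 h2 P h7
    exact h5 (Subtype.ext (map_zero _))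
  have h5 := (AlgebraicIndependent.option_iff.2 ⟨h3, h4⟩).comp _ (finSuccEquiv n).injective
  exact ⟨_, fun i => Subtype.prop _, h5.map' (f := R.val) Subtype.val_injective⟩

theorem sInd : SInd where
  alg _ _ _ h := ind_of_cl h fun _ hx => ind_cl.2 hx
  tower := by
    rintro F F' m n s s' h hs ⟨x, h1, h2⟩ ⟨y, h3, h4⟩
    let := (Subfield.inclusion h).toAlgebra
    have : IsScalarTower F F' ℂ := .of_algebraMap_eq fun _ => rfl
    have h5 := h2.sumElim_of_tower (range_subset_iff.2 fun i => ⟨⟨x i, hs (h1 i)⟩, rfl⟩) h4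
    rw [add_comm]
    refine ⟨_, fun i => ?_, h5.comp _ finSumFinEquiv.symm.injective⟩
    rw [Function.comp_apply]
    cases finSumFinEquiv.symm i
    exacts [Or.inr (h3 _), Or.inl (h1 _)]
  bound F F' m n s _ := ind_bound F F' m n s
  hom := ind_hom
  base := by
    rintro F F' n s h ha ⟨x, h1, h2⟩
    let := (Subfield.inclusion h).toAlgebra
    have : IsScalarTower F F' ℂ := .of_algebraMap_eq fun _ => rfl
    have : Algebra.IsAlgebraic F F' := ⟨fun c =>
      (isAlgebraic_algebraMap_iff (algebraMap F' ℂ).injective).1 (ha c c.2)⟩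
    exact ⟨x, h1, h2.extendScalars F'⟩
  max := ind_max
  fin F s h := ⟨s.ncard, ind_not.2 (((indM F).eRk_le_encard s).trans h.cast_ncard_eq.ge)⟩
  gen F n ι x ξ := by
    refine ⟨fun h => ind_of_cl h ind_adj, fun h => ind_of_cl h (Subset.trans ?_ ind_adj)⟩
    rintro _ ⟨u, rfl⟩
    obtain ⟨P, h1, h2⟩ := mem_RA.1 u.2
    rw [h1.map_eval le_rfl ξ (fun i => ⟨x i, gen_mem x i⟩) u h2.symm]
    exact h1.eval_mem _

end Pool.Agent.MP_c69980_ag.H43
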