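import Pool.Agent.MP_c69980_ag.H43.Spec9

/-!
The difference of a point and its formal translate.
-/

set_option autoImplicit false

namespace Pool.Agent.MP_c69980_ag.H43

open MvPolynomial H60 Finset

lemma AddP_sub {σ τ N N' : Type} [AddCommMonoid N] [AddCommMonoid N'] {W : σ → N} {W' : τ → N'}
    (φ : N →+ N') {H : MvPolynomial σ ℂ} {n : N} (h : H.IsWeightedHomogeneous W n)
    {f : σ → MvPolynomial τ ℂ} (hf : ∀ i, (f i).IsWeightedHomogeneous W' (φ (W i))) :
    (aeval f H).IsWeightedHomogeneous W' (φ n) := by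
  rw [H.as_sum, map_sum]
  refine IsWeightedHomogeneous.sum _ _ _ fun m hm => ?_
  have h1 := h (mem_support_iff.1 hm)
  rw [aeval_monomial, ← h1, Finsupp.weight_apply, Finsupp.sum, map_sum, Finsupp.prod]
  refine IsWeightedHomogeneous.C_mul (IsWeightedHomogeneous.prod _ _ _ fun i _ => ?_) _
  rw [map_nsmul]
  exact (hf i).pow _

lemma AddP_scale {ι κ : Type} [Fintype ι] [Fintype κ] {H : MvPolynomial (ι ⊕ κ) ℂ} {d e : ℕ}
    (h : BiH H d e) {A : Type} [CommRing A] [Algebra ℂ A] (l : A) (y : ι → A) (y' : κ → A) :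
    aeval (Sum.elim y fun i => l * y' i) H = l ^ e * aeval (Sum.elim y y') H := by
  rw [aeval_def, aeval_def, eval₂_eq', eval₂_eq', mul_sum]
  refine sum_congr rfl fun m hm => ?_
  have h1 := h (mem_support_iff.1 hm)
  rw [Finsupp.weight_apply, Finsupp.sum_fintype _ _ (by simp), Fintype.sum_sum_type] at h1
  have h3 : ∑ i, m (Sum.inr i) = e := by simpa [Prod.snd_sum] using congrArg Prod.snd h1
  simp only [Fintype.prod_sum_type, Sum.elim_inl, Sum.elim_inr, mul_pow, prod_mul_distrib,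
    prod_pow_eq_pow_sum, h3]
  ring

lemma AddP_aeval {σ A B : Type} [CommRing A] [Algebra ℂ A] [CommRing B] [Algebra ℂ B]
    (φ : A →ₐ[ℂ] B) (y : σ → A) (H : MvPolynomial σ ℂ) : aeval (φ ∘ y) H = φ (aeval y H) :=
  (congrArg (fun f => f H) (comp_aeval (f := y) φ)).symm

lemma AddP_ext {A : Type} [CommRing A] [IsDomain A] [Algebra ℂ A] (D : A →+ A) (h : Leib D)
    (hc : ∀ c, D (algebraMap ℂ A c) = 0) :
    ∃ (Ω : Type) (_ : Field Ω) (_ : Algebra ℂ Ω) (φ : A →ₐ[ℂ] Ω) (D' : Derivation ℂ Ω Ω),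
      (∀ v, φ v = 0 → v = 0) ∧ ∀ v, D' (φ v) = φ (D v) := by
  obtain ⟨Ω, _, φ, D', h1, h2, h3, -⟩ := h.extend ⊥ fun x hx => by
    rw [Ideal.mem_bot.1 hx, map_zero]; exact zero_mem _
  let _ : Algebra ℂ Ω := (φ.comp (algebraMap ℂ A)).toAlgebra
  have e : ∀ c, algebraMap ℂ Ω c = φ (algebraMap ℂ A c) := fun _ => rfl
  refine ⟨Ω, inferInstance, inferInstance, ⟨φ, fun _ => rfl⟩,
    Derivation.mk' ⟨⟨D', D'.map_add⟩, fun c x => ?_⟩ fun a b => ?_,
    fun v hv => Ideal.mem_bot.1 ((h3 v).1 hv), h2⟩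
  · show D' (c • x) = c • D' x
    rw [Algebra.smul_def, Algebra.smul_def, h1, e, h2, hc, map_zero, zero_mul, zero_add]
  · show D' (a * b) = a * D' b + b * D' a
    rw [h1]; ring

lemma AddP_cw {ι K : Type} [Field K] [Algebra ℂ K] (δ : Derivation ℂ K K) :
    ∃ D : PW ι K →+ PW ι K, Leib D ∧
      (∀ x m, MvPowerSeries.coeff m (D x) = δ (MvPowerSeries.coeff m x)) ∧
      ∀ k, D (MvPowerSeries.C k) = MvPowerSeries.C (δ k) := by
  classical
  let D : PW ι K →+ PW ι K :=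
    { toFun := fun x m => δ (MvPowerSeries.coeff m x)
      map_zero' := _root_.funext fun m => map_zero δ
      map_add' := fun x y => _root_.funext fun m => map_add δ _ _ }
  have e : ∀ x m, MvPowerSeries.coeff m (D x) = δ (MvPowerSeries.coeff m x) := fun _ _ => rfl
  refine ⟨D, fun x y => ?_, e, fun k => ?_⟩
  · ext m
    simp only [e, map_add, MvPowerSeries.coeff_mul, map_sum, Derivation.leibniz, smul_eq_mul,
      ← sum_add_distrib]
    exact sum_congr rfl fun _ _ => by ring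
  · ext m
    simp only [e, MvPowerSeries.coeff_C]
    split_ifs
    · rfl
    · exact map_zero δ

section
variable {t a M : ℕ} {w : Fin M → Option (Fin t)} {Θ : Pt t a → Fin M → ℂ} {PP : PT M t a}
  {A B : Type}

lemma AddP_sb [CommRing A] [Algebra ℂ A] [CommRing B] [Algebra ℂ B] (φ : A →ₐ[ℂ] B)
    (S : Fin M → MvPolynomial (Fin M ⊕ Fin M) ℂ) (y y' : Fin M → A) (c : Fin M) :
    sb S (φ ∘ y) (φ ∘ y') c = φ (sb S y y' c) := by
  rw [sb, sb, ← AddP_aeval, Sum.comp_elim]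

lemma AddP_eqs [CommRing A] [Algebra ℂ A] [CommRing B] [Algebra ℂ B] (φ : A →ₐ[ℂ] B)
    {y : Fin M → A} (h : Eqs Θ y) : Eqs Θ (φ ∘ y) := fun F d h1 h2 => by
  rw [AddP_aeval, h F d h1 h2, map_zero]

lemma AddP_on [Field A] [Algebra ℂ A] [Field B] [Algebra ℂ B] (φ : A →ₐ[ℂ] B)
    {y : Fin M → A} (h : OnG w Θ y) : OnG w Θ (φ ∘ y) :=
  ⟨fun o => let ⟨b, h1, h2⟩ := h.blk o; ⟨b, h1, (map_ne_zero φ).2 h2⟩, AddP_eqs φ h.eqs⟩

lemma AddP_vel [Field A] [Algebra ℂ A] [Field B] [Algebra ℂ B] (φ : A →ₐ[ℂ] B) {δ : A → A}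
    {δ' : B → B} (e : ∀ x, δ' (φ x) = φ (δ x)) {y : Fin M → A} {g : Pt t a}
    (h : Vel w PP δ y fun i => algebraMap ℂ A (g i)) :
    Vel w PP δ' (φ ∘ y) fun i => algebraMap ℂ B (g i) := fun β hβ x => by
  have e1 : co β (φ ∘ y) = φ ∘ co β y := _root_.funext fun x => (map_div₀ φ _ _).symm
  rw [e1, Function.comp_apply, e,
    h β (fun o => ⟨(hβ o).1, (map_ne_zero φ).1 (hβ o).2⟩) x, vf, vf, map_sum]
  exact sum_congr rfl fun i _ => by rw [map_mul, AddP_aeval, φ.commutes]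

variable {S S' : Fin M → MvPolynomial (Fin M ⊕ Fin M) ℂ} {d e d' e' : ℕ}

lemma AddP_diag [CommRing A] [Algebra ℂ A] (hS : IsSub Θ S d e) {y : Fin M → A} (h : Eqs Θ y)
    (c c' : Fin M) : Θ 0 c' • sb S y y c = Θ 0 c • sb S y y c' := by
  have h1 : ∀ c, (aeval (Sum.elim X X) (S c) : PR M).IsHomogeneous (d + e) := fun c =>
    AddP_sub (AddMonoidHom.fst ℕ ℕ + AddMonoidHom.snd ℕ ℕ) (hS.1 c) fun i => by
      cases i <;> exact isWeightedHomogeneous_X ℂ _ _
  have h2 : ∀ {B : Type} [CommRing B] [Algebra ℂ B] (z : Fin M → B) c,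
      aeval z (aeval (Sum.elim X X) (S c) : PR M) = sb S z z c := fun z c => by
    rw [← AddP_aeval, Sum.comp_elim, sb]
    congr 3 <;> exact _root_.funext fun i => aeval_X _ _
  have h3 := h _ _ (((h1 c).C_mul (Θ 0 c')).sub ((h1 c').C_mul (Θ 0 c))) fun p => by
    obtain ⟨l, hl⟩ := hS.2 p p
    have h4 : ∀ c, eval (Θ p) (aeval (Sum.elim X X) (S c) : PR M) = l * Θ (p - p) c :=
      fun c => (h2 (Θ p) c).trans (hl c)
    rw [map_sub, map_mul, map_mul, h4, h4, eval_C, eval_C, sub_self]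
    ring
  rw [map_sub, map_mul, map_mul, h2, h2, aeval_C, aeval_C, sub_eq_zero] at h3
  rw [Algebra.smul_def, Algebra.smul_def, h3]

lemma AddP_two [CommRing A] [Algebra ℂ A] (G : GKsub w Θ PP) (hS : IsSub Θ S d e)
    (hS' : IsSub Θ S' d' e') {y y' : Fin M → A} (h : Eqs Θ y) (h' : Eqs Θ y') (c c' : Fin M) :
    sb S y y' c * sb S' y y' c' = sb S y y' c' * sb S' y y' c := by
  have h1 := G.bi (S c * S' c' - S c' * S' c) (d + d') (e + e')
    (((hS.1 c).mul (hS'.1 c')).sub ((hS.1 c').mul (hS'.1 c))) (fun p q => by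
      obtain ⟨l, hl⟩ := hS.2 p q
      obtain ⟨l', hl'⟩ := hS'.2 p q
      rw [map_sub, map_mul, map_mul, hl, hl, hl', hl']
      ring) A y y' h h'
  rw [map_sub, map_mul, map_mul, sub_eq_zero] at h1
  exact h1

lemma AddP_add [CommRing A] [Algebra ℂ A] (G : GKsub w Θ PP) (hS : IsSub Θ S d e)
    (hS' : IsSub Θ S' d' e') {y y' : Fin M → A} (h : Eqs Θ y) (h' : Eqs Θ y') (c c' : Fin M) :
    sb S y (sb S' y y') c * y' c' = sb S y (sb S' y y') c' * y' c := by
  let R : Fin M → MvPolynomial (Fin M ⊕ Fin M) ℂ := fun c =>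
    aeval (Sum.elim (fun i => X (Sum.inl i)) S') (S c)
  let φ : ℕ × ℕ →+ ℕ × ℕ :=
    { toFun := fun x => (x.1 + x.2 * d', x.2 * e')
      map_zero' := by simp
      map_add' := fun x y => by simp only [Prod.fst_add, Prod.snd_add, Prod.mk_add_mk]; congr 1 <;> ring }
  have h1 : ∀ c, BiH (R c) (d + e * d') (e * e') := fun c =>
    AddP_sub φ (hS.1 c) fun i => by
      cases i with
      | inl i =>
        have := isWeightedHomogeneous_X ℂ
          (Sum.elim (fun _ => (1, 0)) (fun _ => (0, 1)) : Fin M ⊕ Fin M → ℕ × ℕ) (Sum.inl i)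
        simpa [φ] using this
      | inr i => simpa [φ, BiH] using hS'.1 i
  have h2 : ∀ {B : Type} [CommRing B] [Algebra ℂ B] (z z' : Fin M → B) c,
      aeval (Sum.elim z z') (R c) = sb S z (sb S' z z') c := fun z z' c => by
    rw [← AddP_aeval, Sum.comp_elim, sb]
    congr 3
    exact _root_.funext fun i => aeval_X _ _
  have hX : ∀ c : Fin M, BiH (X (Sum.inr c) : MvPolynomial (Fin M ⊕ Fin M) ℂ) 0 1 := fun c =>
    isWeightedHomogeneous_X ℂ _ _
  have h3 := G.bi (R c * X (Sum.inr c') - R c' * X (Sum.inr c)) (d + e * d' + 0) (e * e' + 1)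
    (((h1 c).mul (hX c')).sub ((h1 c').mul (hX c))) (fun p q => by
      obtain ⟨l', hl'⟩ := hS'.2 p q
      obtain ⟨l, hl⟩ := hS.2 p (p - q)
      have h4 : ∀ c, eval (Sum.elim (Θ p) (Θ q)) (R c) = l' ^ e * (l * Θ q c) := fun c => by
        refine (h2 (Θ p) (Θ q) c).trans ?_
        have h5 : sb S' (Θ p) (Θ q) = fun c => l' * Θ (p - q) c := _root_.funext hl'
        rw [h5, sb, AddP_scale (hS.1 c)]
        congr 1
        exact (hl c).trans (by rw [sub_sub_cancel])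
      rw [map_sub, map_mul, map_mul, h4, h4, eval_X, eval_X, Sum.elim_inr, Sum.elim_inr]
      ring) A y y' h h'
  rw [map_sub, map_mul, map_mul, h2, h2, aeval_X, aeval_X, sub_eq_zero] at h3
  exact h3

lemma AddP_zero [Field A] [Algebra ℂ A] {δ : Derivation ℂ A A} {z : Fin M → A} (h : OnG w Θ z)
    (hv : Vel w PP δ z 0) {l : Fin M → ℂ} {c : Fin M} {b : A} (hl : ∑ c', l c' • z c' ≠ 0)
    (hb : (∑ c', l c' • z c') * b = z c) : δ b = 0 := by
  obtain ⟨β, hβ⟩ := exists_ch h.blk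
  have h0 := (hβ none).2
  have h1 : ∀ c, δ (z c / z (β none)) = 0 := fun c => by
    simpa [vf, co] using hv β hβ (c, none)
  have h2 : ∑ c', l c' • (z c' / z (β none)) = (∑ c', l c' • z c') / z (β none) := by
    simp only [sum_div, smul_div_assoc]
  have h3 : δ ((∑ c', l c' • z c') / z (β none)) = 0 := by
    rw [← h2, map_sum]
    simp only [Derivation.map_smul, h1, smul_zero, sum_const_zero]
  have h4 := h1 c
  rw [← hb, mul_div_right_comm, Derivation.leibniz, h3, smul_zero, add_zero, smul_eq_mul] at h4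
  exact (mul_eq_zero.1 h4).resolve_left (div_ne_zero hl h0)

end

theorem sAddP : SAddP := by
  intro t a M w Θ PP K _ _ u F s lam d f ι _ d' T l G B hd hT hl
  have ea : ∀ c, MvPowerSeries.C (algebraMap ℂ K c) = algebraMap ℂ (PW ι K) c := fun c =>
    MvPowerSeries.algebraMap_apply.symm
  let Ta : K →ₐ[ℂ] PW ι K :=
    ⟨T, fun c => (hT.cst _ fun i => (d' i).map_algebraMap c).trans (ea c)⟩
  let Ca : K →ₐ[ℂ] PW ι K := ⟨MvPowerSeries.C, ea⟩
  let cc : PW ι K →ₐ[ℂ] K := ⟨MvPowerSeries.constantCoeff, fun c =>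
    (congrArg MvPowerSeries.constantCoeff (ea c)).symm.trans (MvPowerSeries.constantCoeff_C _)⟩
  have hx : Eqs Θ (MvPowerSeries.C ∘ u : Fin M → PW ι K) := AddP_eqs Ca B.on.eqs
  have hy : Eqs Θ (T ∘ u) := AddP_eqs Ta B.on.eqs
  obtain ⟨S', d0, e0, hS', hne⟩ := G.sub.ex K u u B.on B.on
  obtain ⟨z, hz⟩ : ∃ z, z = sb S' (MvPowerSeries.C ∘ u) (T ∘ u) := ⟨_, rfl⟩
  have h0 : ∀ c, cc (z c) = sb S' u u c := fun c => by
    rw [hz, ← AddP_sb]
    congr 1
    exact _root_.funext fun c => hT.zero _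
  have h1 : ∀ c, algebraMap ℂ K (l ⬝ᵥ Θ 0) * sb S' u u c =
      algebraMap ℂ K (Θ 0 c) * cc (∑ c', l c' • z c') := fun c => by
    rw [map_sum, ← Algebra.smul_def, ← Algebra.smul_def, dotProduct, sum_smul, smul_sum]
    refine sum_congr rfl fun c' _ => ?_
    rw [map_smul, h0, mul_smul, AddP_diag hS' B.on.eqs c c', smul_comm]
  have hl' : algebraMap ℂ K (l ⬝ᵥ Θ 0) ≠ 0 := (map_ne_zero _).2 hl
  have h2 : cc (∑ c', l c' • z c') ≠ 0 := fun h => hne (_root_.funext fun c => by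
    have := h1 c
    rw [h, mul_zero] at this
    exact (mul_eq_zero.1 this).resolve_left hl')
  have h2' : ∑ c', l c' • z c' ≠ 0 := fun h => h2 (by rw [h, map_zero])
  obtain ⟨Li, hLi⟩ := (MvPowerSeries.isUnit_iff_constantCoeff.2 (Ne.isUnit h2)).exists_right_inv
  refine ⟨fun c => Li * z c, fun c m => (B.cst _).2 fun j => ?_, fun c => ?_, fun S e e' hS c => ?_,
    ⟨S', d0, e0, hS', hz ▸ h2'⟩, fun S e e' hS => ?_⟩
  · have : IsDomain (PW ι K) := NoZeroDivisors.to_isDomain _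
    obtain ⟨D, k1, k2, k3⟩ := AddP_cw (ι := ι) (d j)
    obtain ⟨Ω, _, _, φ, D', k4, k5⟩ := AddP_ext D k1 fun c => by
      rw [← ea, k3, Derivation.map_algebraMap, map_zero]
    have k6 : ∀ x, D (T x) = T (d j x) := fun x => by
      ext m
      rw [k2]
      refine (hT.com (d j).toLinearMap (fun i x => ?_) x m).symm
      rcases hd i with h | ⟨j', h⟩
      · simp [h]
      · rw [h]; exact B.com j j' x
    have k7 : sb S' ((φ.comp Ca) ∘ u) ((φ.comp Ta) ∘ u) = φ ∘ z :=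
      _root_.funext fun c => by rw [hz]; exact AddP_sb φ S' _ _ c
    have k8 : φ (∑ c', l c' • z c') = ∑ c', l c' • (φ ∘ z) c' := by
      simp only [map_sum, map_smul, Function.comp_apply]
    have k9 : ∑ c', l c' • (φ ∘ z) c' ≠ 0 := fun h => h2' (k4 _ (k8.trans h))
    obtain ⟨q1, q2⟩ := G.sub.on Ω _ _ S' d0 e0 (AddP_on (φ.comp Ca) B.on)
      (AddP_on (φ.comp Ta) B.on) hS' fun h => k9 (by rw [← k7, h]; simp)
    have q3 := q2 D' _ _
      (AddP_vel (φ.comp Ca) (fun x => (k5 _).trans (congrArg φ (k3 x))) (B.vel j))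
      (AddP_vel (φ.comp Ta) (fun x => (k5 _).trans (congrArg φ (k6 x))) (B.vel j))
    rw [sub_self, k7] at q3
    rw [k7] at q1
    have q4 : D' (φ (Li * z c)) = 0 := AddP_zero q1 q3 (c := c) k9 (by
      rw [← k8, ← map_mul, ← mul_assoc, hLi, one_mul, Function.comp_apply])
    rw [← k2, k4 _ ((k5 _).symm.trans q4), map_zero]
  · have k1 : cc (∑ c', l c' • z c') * cc Li = 1 := by rw [← map_mul, hLi, map_one]
    show cc (Li * z c) = _
    rw [map_mul, h0, map_div₀, eq_div_iff hl']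
    linear_combination cc Li * h1 c + algebraMap ℂ K (Θ 0 c) * k1
  · have k1 : (∑ c', l c' • sb S (MvPowerSeries.C ∘ u) (T ∘ u) c') * z c =
        sb S (MvPowerSeries.C ∘ u) (T ∘ u) c * ∑ c', l c' • z c' := by
      rw [sum_mul, mul_sum]
      refine sum_congr rfl fun c' _ => ?_
      rw [smul_mul_assoc, mul_smul_comm, hz, AddP_two G.sub hS hS' hx hy]
    rw [mul_left_comm, k1, mul_left_comm, mul_comm Li, hLi, mul_one]
  · obtain ⟨c0, -, hc0⟩ := B.on.blk none
    refine ⟨Li ^ e' * sb S (MvPowerSeries.C ∘ u) z c0 * T (u c0)⁻¹, fun c => ?_⟩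
    have k1 : T (u c0)⁻¹ * T (u c0) = 1 := by rw [← map_mul, inv_mul_cancel₀ hc0, map_one]
    have k2 : sb S (MvPowerSeries.C ∘ u) z c * T (u c0) =
        sb S (MvPowerSeries.C ∘ u) z c0 * T (u c) := by
      rw [hz]; exact AddP_add G.sub hS hS' hx hy c c0
    refine (AddP_scale (hS.1 c) Li _ z).trans ?_
    show Li ^ e' * sb S (MvPowerSeries.C ∘ u) z c = _
    linear_combination Li ^ e' * T (u c0)⁻¹ * k2 -
      Li ^ e' * sb S (MvPowerSeries.C ∘ u) z c * k1

end Pool.Agent.MP_c69980_ag.H43
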